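import Pool.Agent.Y697.PP.Cmp
import Pool.Agent.Y697.PQ.Pol

/-! The numbers of the independent tuples in the kernels of symmetric forms. -/

set_option autoImplicit false

namespace Pool.Agent.Y697.PQ

open Finset Module
open Pool.Agent.Y697.PP (Sy Nd YY mem_YY Ph mem_Ph card_YY card_Ph finrank_sup two0 z2 exists_row)

variable {V : Type} [AddCommGroup V] [Module (ZMod 2) V]

theorem dbl {M : Type} [AddCommGroup M] [Module (ZMod 2) M] (x : M) : x + x = 0 := by
  have : x + x = (2 : ZMod 2) • x := (two_smul _ x).symm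
  rw [this, two0, zero_smul]

theorem eq_of_add {M : Type} [AddCommGroup M] [Module (ZMod 2) M] {x y : M} (h : x + y = 0) :
    x = y := by
  have h1 := dbl y
  rw [← h1] at h
  exact add_right_cancel h

section fin
variable [Finite V]

theorem card_YY_eq (t : ℕ) : ∀ W : Submodule (ZMod 2) V,
    finrank (ZMod 2) W + t = finrank (ZMod 2) V → (YY W).card = 2 ^ (t * (t + 1) / 2) := by
  have hfin : Module.Finite (ZMod 2) V := Module.Finite.of_finite
  induction t with
  | zero =>
    intro W h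
    have h1 : W = ⊤ := Submodule.eq_top_of_finrank_eq (by simpa using h)
    have h2 : YY W = {0} := by
      ext Y
      rw [mem_YY, Finset.mem_singleton, h1]
      constructor
      · rintro ⟨-, h3⟩
        exact LinearMap.ext fun x => by rw [h3 x trivial]; rfl
      · rintro rfl
        exact ⟨fun _ _ => rfl, fun _ _ => rfl⟩
    rw [h2]
    rfl
  | succ t ih =>
    intro W h
    obtain ⟨v, hv⟩ : ∃ v, v ∉ W := by
      by_contra hc
      push Not at hc
      have h1 : W = ⊤ := eq_top_iff.2 fun x _ => hc x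
      rw [h1, finrank_top] at h
      omega
    rw [card_YY hv, card_Ph W h, ih _ (finrank_sup hv h), ← pow_add]
    congr 1
    have : (t + 1) * (t + 1 + 1) = t * (t + 1) + 2 * (t + 1) := by ring
    rw [this]
    omega

omit [Finite V] in
theorem exists_form' {B : LinearMap.BilinForm (ZMod 2) V} (hB : Sy B)
    {W U : Submodule (ZMod 2) V} (hd : ∀ x ∈ U, x ∈ W → x = 0) (hN : ∀ u ∈ U, ∀ w ∈ W, B u w = 0) :
    ∃ Y₀ : LinearMap.BilinForm (ZMod 2) V, (Sy Y₀ ∧ ∀ w ∈ W, Y₀ w = 0) ∧ ∀ u ∈ U, Y₀ u = B u := by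
  have hinj : LinearMap.ker (W.mkQ.comp U.subtype) = ⊥ := by
    rw [LinearMap.ker_eq_bot']
    rintro ⟨x, hx⟩ h
    apply Subtype.ext
    apply hd x hx
    simpa using h
  obtain ⟨g, hg⟩ := LinearMap.exists_leftInverse_of_injective _ hinj
  set π : V →ₗ[ZMod 2] V := U.subtype.comp (g.comp W.mkQ) with hπ
  have hπW : ∀ w ∈ W, π w = 0 := by
    intro w hw
    have : W.mkQ w = 0 := by simpa using hw
    rw [hπ, LinearMap.comp_apply, LinearMap.comp_apply, this, map_zero, map_zero]
  have hπU : ∀ u ∈ U, π u = u := by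
    intro u hu
    have := congrArg (fun z : U →ₗ[ZMod 2] U => ((z ⟨u, hu⟩ : U) : V)) hg
    exact this
  have hπm : ∀ x, π x ∈ U := fun x => (g (W.mkQ x)).2
  refine ⟨LinearMap.mk₂ (ZMod 2) (fun x y => B (π x) y + B x (π y) + B (π x) (π y)) ?_ ?_ ?_ ?_,
    ⟨?_, ?_⟩, ?_⟩
  · intro a b c
    simp only [map_add, LinearMap.add_apply]; ring
  · intro a b c
    simp only [map_smul, LinearMap.smul_apply, smul_eq_mul]; ring
  · intro a b c
    simp only [map_add]; ring
  · intro a b c
    simp only [map_smul, smul_eq_mul]; ring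
  · intro x y
    simp only [LinearMap.mk₂_apply]
    rw [hB (π x) y, hB x (π y), hB (π x) (π y)]
    ring
  · intro w hw
    ext y
    simp only [LinearMap.mk₂_apply, hπW w hw, map_zero, LinearMap.zero_apply]
    rw [hB w, hN _ (hπm y) w hw]
    ring
  · intro u hu
    ext y
    simp only [LinearMap.mk₂_apply, hπU u hu]
    linear_combination (B u (π y)) * two0

theorem exists_form {B : LinearMap.BilinForm (ZMod 2) V} (hB : Sy B)
    {W U : Submodule (ZMod 2) V} (hd : ∀ x ∈ U, x ∈ W → x = 0) (hN : ∀ u ∈ U, ∀ w ∈ W, B u w = 0) :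
    ∃ Y₀ ∈ YY W, ∀ u ∈ U, Y₀ u = B u := by
  obtain ⟨Y₀, h1, h2⟩ := exists_form' hB hd hN
  exact ⟨Y₀, mem_YY.2 h1, h2⟩

open Classical in
theorem card_cond {W : Submodule (ZMod 2) V} {j : ℕ} (v : Fin j → V)
    {Y₀ : LinearMap.BilinForm (ZMod 2) V} (hY₀ : Y₀ ∈ YY W)
    (p : LinearMap.BilinForm (ZMod 2) V → Prop) :
    ((YY W).filter fun Y => p Y ∧ ∀ i, Y (v i) = Y₀ (v i)).card =
      ((YY (W ⊔ Submodule.span (ZMod 2) (Set.range v))).filter fun Y => p (Y₀ + Y)).card := by
  have hY0 := mem_YY.1 hY₀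
  have ha : ∀ Y : LinearMap.BilinForm (ZMod 2) V, Y₀ + (Y₀ + Y) = Y := fun Y => PP.add_add2 Y₀ Y
  symm
  refine Finset.card_bij' (fun Y _ => Y₀ + Y) (fun Y _ => Y₀ + Y) ?_ ?_ (fun Y _ => ha Y)
    (fun Y _ => ha Y)
  · intro Y hY
    rw [Finset.mem_filter, mem_YY] at hY
    obtain ⟨⟨h1, h2⟩, h3⟩ := hY
    rw [Finset.mem_filter, mem_YY]
    refine ⟨⟨fun x y => ?_, fun w hw => ?_⟩, h3, fun i => ?_⟩
    · rw [LinearMap.add_apply, LinearMap.add_apply, LinearMap.add_apply, LinearMap.add_apply,
        hY0.1 x y, h1 x y]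
    · rw [LinearMap.add_apply, hY0.2 w hw, h2 w (Submodule.mem_sup_left hw), add_zero]
    · rw [LinearMap.add_apply, h2 _ (Submodule.mem_sup_right (Submodule.subset_span ⟨i, rfl⟩)),
        add_zero]
  · intro Y hY
    rw [Finset.mem_filter, mem_YY] at hY
    obtain ⟨⟨h1, h2⟩, h3, h4⟩ := hY
    rw [Finset.mem_filter, mem_YY, ha]
    refine ⟨⟨fun x y => ?_, ?_⟩, h3⟩
    · rw [LinearMap.add_apply, LinearMap.add_apply, LinearMap.add_apply, LinearMap.add_apply,
        hY0.1 x y, h1 x y]
    · have h5 : W ⊔ Submodule.span (ZMod 2) (Set.range v) ≤ LinearMap.ker (Y₀ + Y) := by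
        refine sup_le (fun w hw => ?_) (Submodule.span_le.2 ?_)
        · rw [LinearMap.mem_ker, LinearMap.add_apply, hY0.2 w hw, h2 w hw, add_zero]
        · rintro x ⟨i, rfl⟩
          rw [SetLike.mem_coe, LinearMap.mem_ker, LinearMap.add_apply, h4 i]
          exact dbl _
      exact fun w hw => LinearMap.mem_ker.1 (h5 hw)

/-- the orthogonal space -/
def Nn (B : LinearMap.BilinForm (ZMod 2) V) (W : Submodule (ZMod 2) V) : Submodule (ZMod 2) V where
  carrier := {x | ∀ w ∈ W, B x w = 0}
  add_mem' := fun {x y} hx hy w hw => by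
    rw [map_add, LinearMap.add_apply, hx w hw, hy w hw, add_zero]
  zero_mem' := fun w _ => by rw [map_zero, LinearMap.zero_apply]
  smul_mem' := fun c x hx w hw => by
    rw [map_smul, LinearMap.smul_apply, hx w hw, smul_zero]

omit [Finite V] in
theorem mem_Nn {B : LinearMap.BilinForm (ZMod 2) V} {W : Submodule (ZMod 2) V} {x : V} :
    x ∈ Nn B W ↔ ∀ w ∈ W, B x w = 0 := Iff.rfl

theorem finrank_Nn {B : LinearMap.BilinForm (ZMod 2) V} (hB : Sy B) {W : Submodule (ZMod 2) V}
    (hN : Nd B W) {t : ℕ} (ht : finrank (ZMod 2) W + t = finrank (ZMod 2) V) :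
    finrank (ZMod 2) (Nn B W) = t := by
  have hfin : Module.Finite (ZMod 2) V := Module.Finite.of_finite
  have hinj : Function.Injective (B.domRestrict W) := by
    rw [← LinearMap.ker_eq_bot, LinearMap.ker_eq_bot']
    rintro ⟨x, hx⟩ h
    exact Subtype.ext (hN x hx h)
  have h1 := LinearMap.finrank_range_of_inj hinj
  have h2 := Subspace.finrank_add_finrank_dualCoannihilator_eq (LinearMap.range (B.domRestrict W))
  have h3 : (LinearMap.range (B.domRestrict W)).dualCoannihilator = Nn B W := by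
    ext x
    rw [Submodule.mem_dualCoannihilator, mem_Nn]
    constructor
    · intro h w hw
      have := h (B w) ⟨⟨w, hw⟩, rfl⟩
      rw [hB x w, this]
    · rintro h φ ⟨⟨w, hw⟩, rfl⟩
      show B w x = 0
      rw [hB w x, h w hw]
  rw [h3, h1] at h2
  omega

end fin

open Classical in
theorem card_comb {j : ℕ} (N Z : Finset V) (c : Fin j → ZMod 2) (hc : c ≠ 0) :
    ((Fintype.piFinset fun _ : Fin j => N).filter fun v => ∑ i, c i • v i ∈ Z).card * N.card ≤
      Z.card * N.card ^ j := by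
  obtain ⟨i₀, hi₀⟩ := Function.ne_iff.1 hc
  have hc1 : c i₀ = 1 := (z2 (c i₀)).resolve_left hi₀
  have hcard : Fintype.card {i : Fin j // i ≠ i₀} + 1 = j := by
    have h1 : Fintype.card {i : Fin j // i ≠ i₀} = Fintype.card (Fin j) - 1 := by
      have := Fintype.card_subtype_compl (fun i : Fin j => i = i₀)
      simp at this ⊢
    have h2 : 0 < j := lt_of_le_of_lt (Nat.zero_le _) i₀.2
    rw [h1, Fintype.card_fin]
    omega
  have h1 : ((Fintype.piFinset fun _ : Fin j => N).filter fun v => ∑ i, c i • v i ∈ Z).card ≤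
      (Z ×ˢ Fintype.piFinset fun _ : {i : Fin j // i ≠ i₀} => N).card := by
    apply Finset.card_le_card_of_injOn (fun v => (∑ i, c i • v i, fun i => v i))
    · intro v hv
      rw [Finset.mem_coe, Finset.mem_filter, Fintype.mem_piFinset] at hv
      rw [Finset.mem_coe, Finset.mem_product, Fintype.mem_piFinset]
      exact ⟨hv.2, fun i => hv.1 i⟩
    · intro v _ v' _ h
      rw [Prod.mk.injEq] at h
      obtain ⟨h2, h3⟩ := h
      have h4 : ∀ i, i ≠ i₀ → v i = v' i := fun i hi => congrFun h3 ⟨i, hi⟩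
      funext i
      by_cases hi : i = i₀
      · rw [hi]
        rw [← Finset.add_sum_erase _ _ (Finset.mem_univ i₀),
          ← Finset.add_sum_erase _ (fun i => c i • v' i) (Finset.mem_univ i₀), hc1, one_smul,
          one_smul] at h2
        have h5 : ∑ x ∈ univ.erase i₀, c x • v x = ∑ x ∈ univ.erase i₀, c x • v' x :=
          Finset.sum_congr rfl fun x hx => by rw [h4 x (Finset.ne_of_mem_erase hx)]
        rw [h5] at h2
        exact add_right_cancel h2
      · exact h4 i hi
  rw [Finset.card_product, Fintype.card_piFinset, Finset.prod_const, Finset.card_univ] at h1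
  calc _ ≤ (Z.card * N.card ^ Fintype.card {i : Fin j // i ≠ i₀}) * N.card :=
        Nat.mul_le_mul_right _ h1
    _ = Z.card * N.card ^ (Fintype.card {i : Fin j // i ≠ i₀} + 1) := by rw [pow_succ, mul_assoc]
    _ = _ := by rw [hcard]

theorem ij_zero {j r : ℕ} (h : r < j) : ij j (2 ^ r) = 0 := by
  unfold ij
  exact Finset.prod_eq_zero (Finset.mem_range.2 h) (sub_self _)

open Classical in
theorem card_LI [Fintype V] (K : Submodule (ZMod 2) V) (j : ℕ) :
    (((univ : Finset (Fin j → V)).filter fun v => (∀ i, v i ∈ K) ∧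
      LinearIndependent (ZMod 2) v).card : ℝ) = ij j (2 ^ finrank (ZMod 2) K) := by
  have hfin : Module.Finite (ZMod 2) V := Module.Finite.of_finite
  have h1 : ((univ : Finset (Fin j → V)).filter fun v => (∀ i, v i ∈ K) ∧
      LinearIndependent (ZMod 2) v).card =
      Nat.card {s : Fin j → K // LinearIndependent (ZMod 2) s} := by
    rw [Nat.card_eq_fintype_card, ← Fintype.card_coe]
    refine Fintype.card_congr ⟨fun v => ⟨fun i => ⟨v.1 i, ((Finset.mem_filter.1 v.2).2.1 i)⟩, ?_⟩,
      fun s => ⟨fun i => (s.1 i : V), ?_⟩, ?_, ?_⟩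
    · have h2 := (Finset.mem_filter.1 v.2).2.2
      exact LinearIndependent.of_comp K.subtype h2
    · rw [Finset.mem_filter]
      refine ⟨Finset.mem_univ _, fun i => (s.1 i).2, ?_⟩
      exact s.2.map' K.subtype K.ker_subtype
    · intro v
      rfl
    · intro s
      rfl
  rw [h1]
  rcases le_or_gt j (finrank (ZMod 2) K) with hj | hj
  · rw [card_linearIndependent hj, ZMod.card]
    unfold ij
    rw [← Fin.prod_univ_eq_prod_range (fun i => ((2 : ℝ) ^ finrank (ZMod 2) K - 2 ^ i)) j]
    push_cast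
    refine Finset.prod_congr rfl fun i _ => ?_
    rw [Nat.cast_sub (Nat.pow_le_pow_right (by norm_num) (by omega))]
    push_cast
    rfl
  · rw [ij_zero hj]
    have h2 : IsEmpty {s : Fin j → K // LinearIndependent (ZMod 2) s} := by
      constructor
      rintro ⟨s, hs⟩
      have := hs.fintype_card_le_finrank
      rw [Fintype.card_fin] at this
      omega
    rw [Nat.card_of_isEmpty]
    exact Nat.cast_zero

end Pool.Agent.Y697.PQ
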